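import Pool.Agent.P8H16.RF.Stm

/-!
# Project RF, package SYM: symmetrization with a second copy
-/

set_option autoImplicit false

namespace Pool.Agent.P8H21.RF

open Finset MeasureTheory ProbabilityTheory
open Pool.Agent.P8H16.RF

/-- Chebyshev's inequality for sums of functions of the coordinates -/
theorem cheb {ι : Type} [Fintype ι] (g : ι → unitInterval → ℝ) (hg : ∀ n, Continuous (g n))
    (hg0 : ∀ n ω, 0 ≤ g n ω ∧ g n ω ≤ 1) (u : ℝ) (hu : 0 < u)
    (hu2 : 12 * (Fintype.card ι : ℝ) ≤ u ^ 2) :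
    (volume : Measure (ι → unitInterval))
      {θ | u / 2 < ∑ n, g n (θ n) - ∑ n, ∫ ω, g n ω} ≤ 1 / 2 := by
  set μ : Measure (ι → unitInterval) := volume with hμ
  have hμpi : μ = Measure.pi fun _ => volume := rfl
  set X : (ι → unitInterval) → ℝ := ∑ n, fun θ => g n (θ n) with hX
  have hXa : ∀ θ, X θ = ∑ n, g n (θ n) := fun θ => by simp [hX]
  have hXc : Continuous X := by
    have : X = fun θ => ∑ n, g n (θ n) := funext hXa
    rw [this]
    fun_prop
  have hXm : MemLp X 2 μ := by
    refine MemLp.of_bound hXc.aestronglyMeasurable (Fintype.card ι : ℝ) (Filter.Eventually.of_forall fun θ => ?_)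
    rw [hXa, Real.norm_eq_abs, abs_of_nonneg (sum_nonneg fun n _ => (hg0 n _).1)]
    calc ∑ n, g n (θ n) ≤ ∑ _n : ι, (1 : ℝ) := sum_le_sum fun n _ => (hg0 n _).2
      _ = _ := by simp
  have hint : ∫ θ, X θ ∂μ = ∑ n, ∫ ω, g n ω := by
    simp only [hXa]
    rw [integral_finsetSum]
    · refine sum_congr rfl fun n _ => ?_
      rw [hμpi]
      exact integral_comp_eval (hg n).aestronglyMeasurable
    · intro n _
      refine (MemLp.of_bound (p := 1) ?_ 1 (Filter.Eventually.of_forall fun θ => ?_)).integrable le_rfl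
      · exact ((hg n).comp (continuous_apply n)).aestronglyMeasurable
      · rw [Real.norm_eq_abs, abs_of_nonneg (hg0 n _).1]
        exact (hg0 n _).2
  have hvar : variance X μ ≤ (Fintype.card ι : ℝ) / 4 := by
    have h1 : variance X μ = ∑ n, variance (g n) volume := by
      rw [hμpi]
      exact variance_sum_pi fun n => MemLp.of_bound (hg n).aestronglyMeasurable 1
        (Filter.Eventually.of_forall fun ω => by
          rw [Real.norm_eq_abs, abs_of_nonneg (hg0 n _).1]
          exact (hg0 n _).2)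
    rw [h1]
    calc ∑ n, variance (g n) volume ≤ ∑ _n : ι, (1 / 4 : ℝ) := by
          refine sum_le_sum fun n _ => ?_
          have h2 := variance_le_sq_of_bounded (μ := (volume : Measure unitInterval)) (X := g n)
            (a := 0) (b := 1) (Filter.Eventually.of_forall fun ω => ⟨(hg0 n ω).1, (hg0 n ω).2⟩)
            (hg n).measurable.aemeasurable
          refine h2.trans ?_
          norm_num
      _ = _ := by
          rw [sum_const, card_univ, nsmul_eq_mul]
          ring
  have h3 := meas_ge_le_variance_div_sq hXm (c := u / 2) (by positivity)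
  have h4 : μ {θ | u / 2 < ∑ n, g n (θ n) - ∑ n, ∫ ω, g n ω} ≤
      μ {ω | u / 2 ≤ |X ω - ∫ θ, X θ ∂μ|} := by
    refine measure_mono fun θ hθ => ?_
    rw [Set.mem_ofPred_eq, hint, hXa]
    exact hθ.le.trans (le_abs_self _)
  refine h4.trans (h3.trans ?_)
  have h5 : variance X μ / (u / 2) ^ 2 ≤ 1 / 2 := by
    rw [div_le_iff₀ (by positivity)]
    nlinarith
  refine (ENNReal.ofReal_le_ofReal h5).trans ?_
  rw [ENNReal.ofReal_div_of_pos (by norm_num)]
  simp

theorem sym : S_SYM := by
  intro ι J _ _ γ hγ hγ1 u hu hu2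
  set μ : Measure (ι → unitInterval) := volume with hμ
  set G : (J → ℝ) → (ι → unitInterval) → ℝ := fun c θ => ∑ n, |∑ j, c j * γ j n (θ n)| with hG
  set m : (J → ℝ) → ℝ := fun c => ∑ n, ∫ ω, |∑ j, c j * γ j n ω| with hm
  have hGc : ∀ c, Continuous (G c) := by
    intro c
    simp only [hG]
    fun_prop
  have hBad : Bad γ u = ⋃ c ∈ {c : J → ℝ | ∑ j, |c j| ≤ 1}, {θ | u < G c θ - m c} := by
    ext θ
    simp only [Bad, Set.mem_ofPred_eq, Set.mem_iUnion, exists_prop, hG, hm]
  have hBad2 : Bad2 γ (u / 2) = ⋃ c ∈ {c : J → ℝ | ∑ j, |c j| ≤ 1},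
      {q | u / 2 < G c q.1 - G c q.2} := by
    ext q
    simp only [Bad2, Set.mem_ofPred_eq, Set.mem_iUnion, exists_prop, hG, sum_sub_distrib]
  have hBo : IsOpen (Bad γ u) := by
    rw [hBad]
    exact isOpen_biUnion fun c _ => isOpen_lt continuous_const ((hGc c).sub continuous_const)
  have hB2o : IsOpen (Bad2 γ (u / 2)) := by
    rw [hBad2]
    exact isOpen_biUnion fun c _ => isOpen_lt continuous_const
      (((hGc c).comp continuous_fst).sub ((hGc c).comp continuous_snd))
  rcases hu.eq_or_lt with h0 | h0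
  · -- `u = 0`
    have hN : Fintype.card ι = 0 := by
      rw [← h0] at hu2
      have : (Fintype.card ι : ℝ) ≤ 0 := by
        simp only [ne_eq, OfNat.ofNat_ne_zero, not_false_eq_true, zero_pow] at hu2
        linarith
      exact_mod_cast le_antisymm this (by positivity)
    have hE : IsEmpty ι := Fintype.card_eq_zero_iff.1 hN
    have : Bad γ u = ∅ := by
      ext θ
      simp only [Bad, Set.mem_ofPred_eq, Set.mem_empty_iff_false, iff_false, not_exists, not_and,
        not_lt, univ_eq_empty, sum_empty, sub_zero]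
      intro c _
      exact hu
    rw [this, measure_empty]
    exact bot_le
  · have hsec : ∀ θ ∈ Bad γ u, 1 / 2 ≤ μ (Prod.mk θ ⁻¹' Bad2 γ (u / 2)) := by
      intro θ hθ
      obtain ⟨c, hc, hcu⟩ := hθ
      have hgc : ∀ n ω, |∑ j, c j * γ j n ω| ≤ 1 := by
        intro n ω
        calc |∑ j, c j * γ j n ω| ≤ ∑ j, |c j * γ j n ω| := abs_sum_le_sum_abs _ _
          _ ≤ ∑ j, |c j| := by
              refine sum_le_sum fun j _ => ?_
              rw [abs_mul]
              exact mul_le_of_le_one_right (abs_nonneg _) (hγ1 j n ω)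
          _ ≤ 1 := hc
      have h1 := cheb (fun n ω => |∑ j, c j * γ j n ω|) (fun n => by fun_prop)
        (fun n ω => ⟨abs_nonneg _, hgc n ω⟩) u h0 hu2
      have h2 : {θ' : ι → unitInterval | u / 2 < G c θ' - m c}ᶜ ⊆
          Prod.mk θ ⁻¹' Bad2 γ (u / 2) := by
        intro θ' hθ'
        rw [Set.mem_compl_iff, Set.mem_ofPred_eq, not_lt] at hθ'
        refine ⟨c, hc, ?_⟩
        rw [sum_sub_distrib]
        have h3 : u < G c θ - m c := hcu
        change u / 2 < G c θ - G c θ'
        linarith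
      have h3 : μ {θ' : ι → unitInterval | u / 2 < G c θ' - m c}ᶜ ≥ 1 / 2 := by
        have hmeas : MeasurableSet {θ' : ι → unitInterval | u / 2 < G c θ' - m c} :=
          (isOpen_lt continuous_const ((hGc c).sub continuous_const)).measurableSet
        rw [measure_compl hmeas (measure_ne_top _ _), measure_univ]
        refine ENNReal.le_sub_of_add_le_right (measure_ne_top _ _) ?_
        calc (1 / 2 : ENNReal) + μ {θ' : ι → unitInterval | u / 2 < G c θ' - m c} ≤ 1 / 2 + 1 / 2 :=
              add_le_add_right h1 _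
          _ = 1 := by simp [ENNReal.inv_two_add_inv_two]
      exact h3.trans (measure_mono h2)
    have h4 : (1 / 2) * μ (Bad γ u) ≤ (μ.prod μ) (Bad2 γ (u / 2)) := by
      rw [Measure.prod_apply hB2o.measurableSet]
      calc (1 / 2) * μ (Bad γ u) = ∫⁻ _θ in Bad γ u, 1 / 2 ∂μ := by
            rw [setLIntegral_const]
        _ ≤ ∫⁻ θ in Bad γ u, μ (Prod.mk θ ⁻¹' Bad2 γ (u / 2)) ∂μ :=
            setLIntegral_mono' hBo.measurableSet hsec
        _ ≤ ∫⁻ θ, μ (Prod.mk θ ⁻¹' Bad2 γ (u / 2)) ∂μ := setLIntegral_le_lintegral _ _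
    calc μ (Bad γ u) = 2 * ((1 / 2) * μ (Bad γ u)) := by
          rw [← mul_assoc]
          simp [ENNReal.mul_inv_cancel]
      _ ≤ 2 * (μ.prod μ) (Bad2 γ (u / 2)) := mul_le_mul_right h4 2

end Pool.Agent.P8H21.RF
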